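import Pool.Agent.SZT.StmtsC

/-!
# SZT row BDK: classification of the reduced ideals which are not good
-/

set_option autoImplicit false

namespace Pool.Agent.SZT.H25

open Polynomial H58Q

theorem mi_lin_left {K : Type} [Field K] (f : K[X]) (A B : K[X]) :
    (⟨A, 0⟩ : Q K f) ∈ MI f A B :=
  Ideal.subset_span (by simp)

theorem sub_unit {K : Type} [Field K] (f : K[X]) (a t : K) (h : a ≠ t) (B B' : K[X]) :
    IsCoprime (MI f (X - C t) B) (MI f (X - C a) B') := by
  rw [Ideal.isCoprime_iff_exists]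
  have hc : (C (a - t)⁻¹ : K[X]) * ((X - C t) - (X - C a)) = 1 := by
    have h1 : (X - C t : K[X]) - (X - C a) = C (a - t) := by rw [C_sub]; ring
    rw [h1, ← C_mul, inv_mul_cancel₀ (sub_ne_zero.2 h), C_1]
  refine ⟨(⟨C (a - t)⁻¹, 0⟩ : Q K f) * ⟨X - C t, 0⟩, Ideal.mul_mem_left _ _ (mi_lin_left f _ _),
    (⟨-C (a - t)⁻¹, 0⟩ : Q K f) * ⟨X - C a, 0⟩, Ideal.mul_mem_left _ _ (mi_lin_left f _ _), ?_⟩
  ext1
  · simp only [QuadraticAlgebra.re_add, QuadraticAlgebra.re_mul, QuadraticAlgebra.re_one]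
    linear_combination hc
  · simp only [QuadraticAlgebra.im_add, QuadraticAlgebra.im_mul, QuadraticAlgebra.im_one]
    ring

theorem bdk (mik : MikStatement) : BdkStatement := by
  intro K _ f A B h2 hsq hM hA hng
  by_cases hA1 : A.natDegree ≤ 1
  · exact Or.inl hA1
  right
  have hA2 : A.natDegree = 2 := by omega
  have hnc : ¬ IsCoprime A f := fun h => hng { toMum := hM, two := hA2, cop := h }
  have hA0 : A ≠ 0 := hM.monic.ne_zero
  have hf0 : f ≠ 0 := hsq.ne_zero
  have hex : ∃ p : K[X], Irreducible p ∧ p ∣ A ∧ p ∣ f := by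
    by_contra hcon
    push Not at hcon
    exact hnc (isCoprime_of_irreducible_dvd (fun h => hA0 h.1) fun z hz h1 => hcon z hz h1)
  obtain ⟨p, hp, hpA, hpf⟩ := hex
  have hpB : p ∣ B := by
    have h1 : p ∣ B ^ 2 - f := hpA.trans hM.dvd
    have h3 : p ∣ B ^ 2 := by
      have := dvd_add h1 hpf
      rwa [sub_add_cancel] at this
    exact hp.prime.dvd_of_dvd_pow h3
  have hpd : 0 < p.natDegree := hp.natDegree_pos
  have hpd2 : p.natDegree ≤ 2 := hA2 ▸ natDegree_le_of_dvd hpA hA0
  rcases Nat.lt_or_ge 1 p.natDegree with hd | hd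
  · -- degree two
    left
    have hpd3 : p.natDegree = 2 := by omega
    have hAp : A ∣ p := by
      obtain ⟨q, hq⟩ := hpA
      have hq0 : q ≠ 0 := fun h => hA0 (by rw [hq, h, mul_zero])
      have hqd : q.natDegree = 0 := by
        have := natDegree_mul hp.ne_zero hq0
        rw [← hq] at this
        omega
      rw [natDegree_eq_zero] at hqd
      obtain ⟨c, rfl⟩ := hqd
      have hc0 : c ≠ 0 := fun h => hq0 (by rw [h, C_0])
      refine ⟨C c⁻¹, ?_⟩
      rw [hq, mul_assoc, ← C_mul, mul_inv_cancel₀ hc0, C_1, mul_one]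
    refine ⟨hAp.trans hpf, ?_⟩
    by_contra hB0
    exact absurd (degree_le_of_dvd (hAp.trans hpB) hB0) (not_le.2 hM.deg)
  · -- degree one
    right
    have hpd1 : p.natDegree = 1 := by omega
    obtain ⟨t, ht⟩ : ∃ t, p.IsRoot t := by
      have := exists_root_of_degree_eq_one (p := p)
        (by rw [degree_eq_natDegree hp.ne_zero, hpd1]; rfl)
      exact this
    have hdt : (X - C t) ∣ p := dvd_iff_isRoot.2 ht
    have htA := hdt.trans hpA
    have htf := hdt.trans hpf
    have htB := hdt.trans hpB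
    obtain ⟨A1, hA1⟩ := htA
    have hA1m : A1.Monic := by
      have h3 : ((X - C t) * A1).Monic := hA1 ▸ hM.monic
      exact (monic_X_sub_C t).of_mul_monic_left h3
    have hA1d : A1.natDegree = 1 := by
      have := natDegree_mul (X_sub_C_ne_zero t) hA1m.ne_zero
      rw [← hA1, hA2, natDegree_X_sub_C] at this
      omega
    obtain ⟨a, rfl⟩ : ∃ a, A1 = X - C a := by
      refine ⟨-A1.coeff 0, ?_⟩
      rw [C_neg, sub_neg_eq_add]
      exact hA1m.eq_X_add_C hA1d
    have hat : a ≠ t := by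
      rintro rfl
      have h3 : (X - C a) * (X - C a) ∣ B ^ 2 := by
        rw [pow_two]; exact mul_dvd_mul htB htB
      have h4 : (X - C a) * (X - C a) ∣ B ^ 2 - f := hA1 ▸ hM.dvd
      have h5 : (X - C a) * (X - C a) ∣ f := by
        have := dvd_sub h3 h4
        rwa [sub_sub_cancel] at this
      exact (not_isUnit_X_sub_C a) (hsq _ h5)
    set b : K := B.eval a with hb
    have hBa : (X - C a) ∣ B - C b := by
      rw [dvd_iff_isRoot, IsRoot, eval_sub, eval_C, hb, sub_self]
    have haA : (X - C a) ∣ A := hA1 ▸ dvd_mul_left _ _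
    have hdb : (X - C a) ∣ C b ^ 2 - f := by
      have h3 : C b ^ 2 - f = (B ^ 2 - f) - (B - C b) * (B + C b) := by ring
      rw [h3]
      exact dvd_sub (haA.trans hM.dvd) (Dvd.dvd.mul_right hBa _)
    have hdt0 : (X - C t) ∣ (0 : K[X]) ^ 2 - f := by
      have h3 : (0 : K[X]) ^ 2 - f = -f := by ring
      rw [h3]
      exact (dvd_neg).2 htf
    refine ⟨t, a, b, dvd_iff_isRoot.1 htf, ⟨monic_X_sub_C a, ?_, hdb⟩, ?_⟩
    · rw [degree_X_sub_C]
      exact lt_of_le_of_lt degree_C_le (by norm_num)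
    · rw [Ideal.mul_eq_inf_of_isCoprime (sub_unit f a t hat 0 (C b))]
      ext x
      obtain ⟨U, W⟩ := x
      rw [Ideal.mem_inf, mik K f (X - C t) 0 U W hdt0, mik K f (X - C a) (C b) U W hdb,
        mik K f A B U W hM.dvd]
      have e1 : (X - C t) ∣ U + W * 0 ↔ (X - C t) ∣ U + W * B := by
        rw [mul_zero, add_zero]
        exact (dvd_add_left (Dvd.dvd.mul_left htB W)).symm
      have e2 : (X - C a) ∣ U + W * C b ↔ (X - C a) ∣ U + W * B := by
        have h3 : U + W * B = (U + W * C b) + W * (B - C b) := by ring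
        rw [h3]
        exact (dvd_add_left (Dvd.dvd.mul_left hBa W)).symm
      rw [e1, e2, hA1]
      constructor
      · rintro ⟨h3, h4⟩
        exact (isCoprime_X_sub_C_of_isUnit_sub
          (isUnit_iff_ne_zero.2 (sub_ne_zero.2 hat.symm))).mul_dvd h3 h4
      · intro h3
        exact ⟨(dvd_mul_right _ _).trans h3, (dvd_mul_left _ _).trans h3⟩

end Pool.Agent.SZT.H25
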