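import Pool.Agent.SZT.StmtsC
import Pool.Agent.Helper27_BHT.Stmts

/-!
# SZT row LFN: A-OUT at the finite places
-/

set_option autoImplicit false

namespace Pool.Agent.SZT.H25

open Polynomial NumberField H58Q

theorem discr_five25 {R : Type} [CommRing R] [Nontrivial R] {f : R[X]} (hf : f.Monic)
    (h5 : f.natDegree = 5) : discr f = resultant f (derivative f) 5 4 := by
  have h := resultant_deriv (f := f) (by rw [← natDegree_pos_iff_degree_pos]; omega)
  rw [h5, hf.leadingCoeff] at h
  norm_num at h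
  exact h.symm

theorem discr_map_five25 {R S : Type} [CommRing R] [Nontrivial R] [CommRing S] [Nontrivial S]
    (φ : R →+* S) {f : R[X]} (hf : f.Monic) (h5 : f.natDegree = 5) :
    discr (f.map φ) = φ (discr f) := by
  rw [discr_five25 hf h5, discr_five25 (hf.map φ) (by rw [hf.natDegree_map, h5]), derivative_map,
    resultant_map_map]

/-- A split monic quintic is a product of linear factors. -/
theorem exists_theta25 {E : Type} [Field E] {F : E[X]} (hs : F.Splits) (hF : F.Monic)
    (h5 : F.natDegree = 5) : ∃ θ : Fin 5 → E, F = ∏ i, (X - C (θ i)) := by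
  have hcard : F.roots.card = 5 := by rw [← h5]; exact hs.natDegree_eq_card_roots.symm
  obtain ⟨l, hl⟩ := Quot.exists_rep F.roots
  have hl' : (l : Multiset E) = F.roots := hl
  have hlen : l.length = 5 := by rw [← hcard, ← hl', Multiset.coe_card]
  refine ⟨fun i => l.get (Fin.cast hlen.symm i), ?_⟩
  have h1 : F = (F.roots.map fun a => X - C a).prod := hs.eq_prod_roots_of_monic hF
  rw [← hl', Multiset.map_coe, Multiset.prod_coe] at h1
  rw [h1]
  have h2 : ∏ i : Fin 5, (X - C (l.get (Fin.cast hlen.symm i))) =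
      ∏ i : Fin l.length, (X - C (l.get i)) :=
    Equiv.prod_comp (finCongr hlen.symm) (fun i : Fin l.length => X - C (l.get i))
  rw [h2, ← List.prod_ofFn]
  congr 1
  apply List.ext_get
  · simp
  · intro n h3 h4
    simp

/-- separable products of linear factors have distinct roots -/
theorem theta_inj25 {E : Type} [Field E] {θ : Fin 5 → E}
    (h : (∏ i, (X - C (θ i)) : E[X]).Separable) : Function.Injective θ := by
  intro i j hij
  by_contra hne
  have h1 : (X - C (θ i)) * (X - C (θ j)) ∣ (∏ i, (X - C (θ i)) : E[X]) := by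
    rw [← Finset.prod_pair hne (f := fun k => (X - C (θ k) : E[X]))]
    exact Finset.prod_dvd_prod_of_subset _ _ _ (Finset.subset_univ _)
  rw [← hij] at h1
  exact not_isUnit_X_sub_C (θ i) (h.squarefree _ h1)

/-- roots of an integral monic quintic are integral -/
theorem root_le25 {E : Type} [Field E] (v : AbsoluteValue E ℝ) (hv : IsNonarchimedean v)
    {F : E[X]} (hF : F.Monic) (h5 : F.natDegree = 5) (hc : ∀ n, v (F.coeff n) ≤ 1) {x : E}
    (hx : F.eval x = 0) : v x ≤ 1 := by
  by_contra hcon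
  push Not at hcon
  rw [eval_eq_sum_range, h5, Finset.sum_range_succ] at hx
  have h6 : F.coeff 5 = 1 := by rw [← h5]; exact hF
  rw [h6, one_mul] at hx
  have h7 : x ^ 5 = -∑ i ∈ Finset.range 5, F.coeff i * x ^ i := by
    linear_combination hx
  obtain ⟨b, hb, hle⟩ := hv.finset_image_add_of_nonempty (fun i => F.coeff i * x ^ i)
    (t := Finset.range 5) (by simp)
  have h8 : v x ^ 5 ≤ v x ^ 4 := by
    calc v x ^ 5 = v (x ^ 5) := (map_pow v x 5).symm
      _ = v (∑ i ∈ Finset.range 5, F.coeff i * x ^ i) := by rw [h7, v.map_neg]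
      _ ≤ v (F.coeff b * x ^ b) := hle
      _ = v (F.coeff b) * v x ^ b := by rw [map_mul, map_pow]
      _ ≤ 1 * v x ^ 4 := by
          refine mul_le_mul (hc b) (pow_le_pow_right₀ hcon.le ?_) (by positivity) zero_le_one
          have := Finset.mem_range.1 hb
          omega
      _ = v x ^ 4 := one_mul _
  have h9 : v x ^ 4 < v x ^ 5 := pow_lt_pow_right₀ hcon (by norm_num)
  linarith

theorem lv_map25 {K E : Type} [Field K] [Field E] (φ : K →+* E) (v : K → ℝ) (v' : E → ℝ)
    (hv : ∀ x, v' (φ x) = v x) (f A U : K[X]) (M : ℕ) :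
    Lv v' (f.map φ) (A.map φ) (U.map φ) M = Lv v f A U M := by
  have h4 : (4 : E[X]) * f.map φ = (4 * f).map φ := by
    rw [Polynomial.map_mul, Polynomial.map_ofNat]
  have h2 : (2 : E[X]) * U.map φ = (2 * U).map φ := by
    rw [Polynomial.map_mul, Polynomial.map_ofNat]
  unfold Lv
  rw [h4, h2]
  simp only [natDegree_map, resultant_map_map, hv]

theorem lfn (aot : AOutStatement) (dsr : DsrStatement) (ext1 : UBT.Ext1Stmt)
    (ev : BHT.EVStmt) : LfnStatement := by
  obtain ⟨c2, ci, hc2, -, haot, -⟩ := aot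
  refine ⟨c2, hc2, ?_⟩
  intro K _ _ v f A B U W M hf h5 hsq hint hG hcU hM hMe heq
  have hU0 : U ≠ 0 := by
    rintro rfl
    rw [isCoprime_zero_right] at hcU
    have h1 := natDegree_eq_zero_of_isUnit hcU
    rw [hG.two] at h1
    omega
  have hfA : f * A * U ≠ 0 := mul_ne_zero (mul_ne_zero hf.ne_zero hG.monic.ne_zero) hU0
  obtain ⟨E, _, _, _, hsp, -⟩ := ext1 K (f * A * U) hfA
  obtain ⟨v', hna, hv'⟩ := ev K E v
  set φ : K →+* E := algebraMap K E with hφ
  rw [Polynomial.map_mul, Polynomial.map_mul] at hsp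
  have hfm : (f.map φ).Monic := hf.map φ
  have hAm : (A.map φ).Monic := hG.monic.map φ
  have hUm : U.map φ ≠ 0 := (Polynomial.map_ne_zero_iff φ.injective).2 hU0
  obtain ⟨hsp', hsU⟩ := (splits_mul (mul_ne_zero hfm.ne_zero hAm.ne_zero) hUm).1 hsp
  obtain ⟨hsf, hsA⟩ := (splits_mul hfm.ne_zero hAm.ne_zero).1 hsp'
  have h5' : (f.map φ).natDegree = 5 := by rw [hf.natDegree_map, h5]
  obtain ⟨θ, hθ⟩ := exists_theta25 hsf hfm h5'
  have hsep : (f.map φ).Separable := (PerfectField.separable_iff_squarefree.2 hsq).map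
  have hinj : Function.Injective θ := theta_inj25 (hθ ▸ hsep)
  have hcop : IsCoprime (A.map φ) (U.map φ) := hcU.map (mapRingHom φ)
  have heq' : (U.map φ) ^ 2 - (∏ i, (X - C (θ i))) * (W.map φ) ^ 2 = (A.map φ) ^ M := by
    rw [← hθ, ← Polynomial.map_pow, ← Polynomial.map_pow, ← Polynomial.map_pow,
      ← Polynomial.map_mul, ← Polynomial.map_sub, heq]
  have hmain := haot E v' θ (A.map φ) (U.map φ) (W.map φ) M hna two_ne_zero hinj hAm
    (by rw [hG.monic.natDegree_map]; exact hG.two) hsA hsU hcop hM hMe heq'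
  rw [← hθ, lv_map25 φ v v' hv' f A U M] at hmain
  have h2 : v' 2 = v 2 := by
    have h3 : φ 2 = 2 := map_ofNat φ 2
    rw [← hv' 2, h3]
  have hd : v' (dsc θ) = v (discr f) := by
    rw [← hv' (discr f), ← discr_map_five25 φ hf h5, hθ]
    rcases dsr E θ with h | h
    · rw [h]
    · rw [h, v'.map_neg]
  have hroot : ∀ i, v' (θ i) ≤ 1 := by
    intro i
    refine root_le25 v' hna hfm h5' (fun n => ?_) (x := θ i) ?_
    · rw [coeff_map, hv']; exact hint n
    · rw [hθ, eval_prod]
      exact Finset.prod_eq_zero (Finset.mem_univ i) (by simp)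
  have hrho0 : 0 ≤ rho v' θ := Real.iSup_nonneg fun p => v'.nonneg _
  have hrho1 : rho v' θ ≤ 1 := by
    refine ciSup_le fun p => ?_
    rw [sub_eq_add_neg]
    refine (hna _ _).trans (max_le (hroot _) ?_)
    rw [v'.map_neg]
    exact hroot _
  have hlog : Real.log (rho v' θ) ≤ 0 := Real.log_nonpos hrho0 hrho1
  rw [hd, h2] at hmain
  linarith

end Pool.Agent.SZT.H25
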