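import Pool.Agent.SZT.StmtsA

/-!
# SZT row PTA: the bound for one point near the roots
-/

set_option autoImplicit false

namespace Pool.Agent.SZT.H25

open Polynomial
open Pool.Agent.MNT (QU vC)
open scoped Classical

theorem sum_two {E : Type} (a : Fin 2 → E) (j : Fin 2) (g : E → ℝ) :
    g (a 0) + g (a 1) = g (a j) + g (a (1 - j)) := by
  fin_cases j
  · simp
  · simp [add_comm]

theorem pta_alg (l0 l1 t : ℝ) (h : l0 ≤ l1) :
    0 ≤ ((1 - t) * l0 + t * l1) - l0 / 2 -
      ((1 - t) * ((1 - t) * l0 + t * l1) + t * l1) / 2 := by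
  have h1 : ((1 - t) * l0 + t * l1) - l0 / 2 -
      ((1 - t) * ((1 - t) * l0 + t * l1) + t * l1) / 2 = t ^ 2 / 2 * (l1 - l0) := by ring
  rw [h1]
  exact mul_nonneg (by positivity) (by linarith)

theorem pta (cvx : CvxStmt) (uvl : UvlStmt) (fvl : FvlStmt) : PtaStmt := by
  intro E _ v c₀ e hQ he θ a N U W hθ hU hS hG ρ hρ j i hx hnear hr
  have hc0 : 0 ≤ c₀ := hQ.1
  have hN : (0 : ℝ) < N := by exact_mod_cast hS.pos
  have hcard : (Multiset.card U.roots : ℝ) = 2 * N := by
    rw [← hU.natDegree_eq_card_roots, hS.deg]; push_cast; ring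
  have hxi : a j ≠ θ i := hx i
  have hr0 : 0 < v (a j - θ i) := v.pos (sub_ne_zero.2 hxi)
  -- the bound on log v (U x)
  have hLx := uvl E v c₀ hQ U hU hS.lead (a j) (θ i) hxi (hS.ev j)
  obtain ⟨-, hF2, hF3⟩ := fvl E v c₀ hQ θ hθ (a j) i hx hnear
  obtain ⟨-, hconv⟩ := cvx E v U.roots (θ i)
  set Fx : ℝ := Real.log (v ((∏ k, (X - C (θ k))).eval (a j))) with hFx
  set Lx : ℝ := Real.log (v (U.eval (a j))) with hLxd
  set r : ℝ := v (a j - θ i) with hrd
  set y' : ℝ := v (a (1 - j) - θ i) with hyd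
  set R₁ : ℝ := Real.exp c₀ * ρ with hR₁
  set J : ℝ → ℝ := JJ v U.roots (θ i) with hJ
  have hR10 : 0 < R₁ := lt_of_lt_of_le hr0 hr
  rw [hcard] at hLx
  have key : ∀ K : ℝ, J r ≤ N * K → 1 / (2 * (N : ℝ)) * Lx ≤ c₀ + K / 2 := by
    intro K hK
    have h1 : Lx ≤ (2 * N) * (c₀ + K / 2) := by
      have h2 : (2 * (N : ℝ)) * (c₀ + K / 2) = 2 * N * c₀ + N * K := by ring
      rw [h2]; linarith
    rw [one_div, inv_mul_le_iff₀ (by positivity)]
    exact h1
  have hHm : ∀ R : ℝ, Hm v U.roots a (θ i) R e →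
      J R ≤ N * (Real.log (max R r) + Real.log (max R y') + e) := by
    intro R h
    unfold Hm at h
    rw [hcard, sum_two a j (fun z => Real.log (max R (v (z - θ i))))] at h
    have h2 : (2 * (N : ℝ)) / 2 = N := by ring
    rw [h2] at h
    exact h
  have hGi := hG i
  -- the nearest root
  have hne : (Finset.univ.erase i : Finset (Fin 5)).Nonempty := by
    rw [← Finset.card_pos, Finset.card_erase_of_mem (Finset.mem_univ i)]
    simp
  obtain ⟨k₀, hk₀, hmin⟩ := Finset.exists_min_image (Finset.univ.erase i)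
    (fun k => v (θ k - θ i)) hne
  have hk₀i : k₀ ≠ i := (Finset.mem_erase.1 hk₀).1
  set r₀ : ℝ := v (θ k₀ - θ i) with hr₀
  have hr₀0 : 0 < r₀ := v.pos (sub_ne_zero.2 fun h => hk₀i (hθ h))
  have hmin' : ∀ k, k ≠ i → r₀ ≤ v (θ k - θ i) := fun k hk =>
    hmin k (Finset.mem_erase.2 ⟨hk, Finset.mem_univ k⟩)
  set S : ℝ := ∑ k ∈ Finset.univ.erase i, Real.log (v (θ i - θ k)) with hSd
  set m : ℝ := Real.log (max R₁ y') with hm
  rcases le_or_gt r r₀ with hcase | hcase
  · -- case I
    have h1 := hHm r (hGi r hr0 (Or.inl fun k hk => hcase.trans (hmin' k hk)))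
    rw [max_self] at h1
    have h2 := key _ h1
    have h3 : Real.log (max r y') ≤ m :=
      Real.log_le_log (lt_of_lt_of_le hr0 (le_max_left _ _)) (max_le_max hr le_rfl)
    have h4 : ∑ k ∈ Finset.univ.erase i, (Real.log (v (θ i - θ k)) - c₀) = S - 4 * c₀ := by
      rw [Finset.sum_sub_distrib, Finset.sum_const, Finset.card_erase_of_mem (Finset.mem_univ i)]
      simp [hSd]
    rw [h4] at hF2
    linarith
  · -- case II
    have hlt : Real.log r₀ < Real.log R₁ := Real.log_lt_log hr₀0 (lt_of_lt_of_le hcase hr)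
    have hl1 : Real.log r₀ < Real.log r := Real.log_lt_log hr₀0 hcase
    have hl2 : Real.log r ≤ Real.log R₁ := Real.log_le_log hr0 hr
    set τ : ℝ := (Real.log r - Real.log r₀) / (Real.log R₁ - Real.log r₀) with hτ
    have hd0 : 0 < Real.log R₁ - Real.log r₀ := by linarith
    have hτ0 : 0 ≤ τ := div_nonneg (by linarith) hd0.le
    have hτ1 : τ ≤ 1 := by rw [hτ, div_le_one hd0]; linarith
    have hlog : Real.log r = (1 - τ) * Real.log r₀ + τ * Real.log R₁ := by
      have h5 : τ * (Real.log R₁ - Real.log r₀) = Real.log r - Real.log r₀ := by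
        rw [hτ]; field_simp
      linear_combination -h5
    have hcv := hconv r₀ r R₁ τ hr₀0 hr0 hR10 hτ0 hτ1 hlog
    have h1 := hHm r₀ (hGi r₀ hr₀0 (Or.inl hmin'))
    have h2 := hHm R₁ (hGi R₁ hR10 (Or.inr fun k =>
      mul_le_mul_of_nonneg_left (hρ k i) (Real.exp_pos _).le))
    rw [max_eq_right hcase.le] at h1
    rw [max_eq_left hr] at h2
    have h3 : Real.log (max r₀ y') ≤ m :=
      Real.log_le_log (lt_of_lt_of_le hr₀0 (le_max_left _ _))
        (max_le_max (hcase.le.trans hr) le_rfl)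
    have h1' : J r₀ ≤ N * (Real.log r + m + e) :=
      h1.trans (mul_le_mul_of_nonneg_left (by linarith) hN.le)
    have h4 : J r ≤ N * ((1 - τ) * Real.log r + τ * Real.log R₁ + m + e) := by
      calc J r ≤ (1 - τ) * J r₀ + τ * J R₁ := hcv
        _ ≤ (1 - τ) * (N * (Real.log r + m + e)) + τ * (N * (Real.log R₁ + m + e)) :=
            add_le_add (mul_le_mul_of_nonneg_left h1' (by linarith))
              (mul_le_mul_of_nonneg_left h2 hτ0)
        _ = N * ((1 - τ) * Real.log r + τ * Real.log R₁ + m + e) := by ring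
    have h5 := key _ h4
    have h6 := hF3 k₀ hk₀i
    have h7 : ∑ k ∈ (Finset.univ.erase i).erase k₀, (Real.log (v (θ i - θ k)) - c₀) =
        S - Real.log r₀ - 3 * c₀ := by
      rw [Finset.sum_sub_distrib, Finset.sum_const, Finset.card_erase_of_mem hk₀,
        Finset.card_erase_of_mem (Finset.mem_univ i)]
      have h8 := Finset.add_sum_erase (Finset.univ.erase i)
        (fun k => Real.log (v (θ i - θ k))) hk₀
      have h9 : v (θ i - θ k₀) = r₀ := by rw [hr₀, v.map_sub]
      simp only [h9] at h8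
      rw [← hSd] at h8
      simp
      linarith
    rw [h7] at h6
    have h10 := pta_alg (Real.log r₀) (Real.log R₁) τ hlt.le
    rw [← hlog] at h10
    linarith

end Pool.Agent.SZT.H25
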